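import Pool.Agent.Helper58.Gat.Strong

/-!
# Gateaux smooth norms with an Aronszajn null set of Fréchet points

`MP_23c9b9_an`, Q1, positive answer.  Every separable infinite-dimensional superreflexive Banach
space has an equivalent norm which is Gateaux differentiable at every nonzero point and whose set
of Fréchet points is a Borel set which is null on every affine subspace of a certain finite
dimension `d`; in particular this set is Aronszajn null.
-/

namespace Pool.Agent.Results.MP_23c9b9_an.FrechetNull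

section

variable {X : Type} [NormedAddCommGroup X] [NormedSpace ℝ X]

/-- `N` is an equivalent norm on `X`. -/
def EquivalentNorm (N : X → ℝ) : Prop :=
  (∀ x y : X, N (x + y) ≤ N x + N y) ∧ (∀ (c : ℝ) (x : X), N (c • x) = |c| * N x) ∧
    ∃ a b : ℝ, 0 < a ∧ 0 < b ∧ ∀ x : X, a * ‖x‖ ≤ N x ∧ N x ≤ b * ‖x‖

/-- `N` is uniformly convex. -/
def UniformlyConvex (N : X → ℝ) : Prop :=
  ∀ ε : ℝ, 0 < ε → ∃ δ : ℝ, 0 < δ ∧ ∀ x y : X,
    N x ≤ 1 → N y ≤ 1 → ε ≤ N (x - y) → N (x + y) ≤ 2 - δ

/-- `N` is Gateaux differentiable at every nonzero point: the directional derivatives exist and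
form a bounded linear functional. -/
def GateauxOffZero (N : X → ℝ) : Prop :=
  ∀ x : X, x ≠ 0 → ∃ f : X →L[ℝ] ℝ, ∀ v : X, HasDerivAt (fun t : ℝ => N (x + t • v)) (f v) 0

/-- The set of the points of Fréchet differentiability of `N`. -/
def frechetPoints (N : X → ℝ) : Set X := {x | DifferentiableAt ℝ N x}

/-- `A` is Aronszajn null: it is a Borel set, and for every sequence `(x_n)` with dense linear
span it is a union of Borel sets `A_n` such that `{t : y + t x_n ∈ A_n}` has Lebesgue measure zero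
for all `n` and `y`. -/
def AronszajnNull (A : Set X) : Prop :=
  @MeasurableSet X (borel X) A ∧ ∀ x : ℕ → X,
    Dense ((Submodule.span ℝ (Set.range x) : Submodule ℝ X) : Set X) →
    ∃ B : ℕ → Set X, (∀ n : ℕ, @MeasurableSet X (borel X) (B n)) ∧ A = ⋃ n, B n ∧
      ∀ (n : ℕ) (y : X), MeasureTheory.volume {t : ℝ | y + t • x n ∈ B n} = 0

/-- `A` meets every affine subspace of dimension `d` in a Lebesgue null set. -/
def NullOnAffine (d : ℕ) (A : Set X) : Prop :=
  ∀ u : Fin d → X, LinearIndependent ℝ u → ∀ x : X,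
    MeasureTheory.volume {t : Fin d → ℝ | x + ∑ i, t i • u i ∈ A} = 0

end

theorem result (X : Type) [NormedAddCommGroup X] [NormedSpace ℝ X] [CompleteSpace X]
    [TopologicalSpace.SeparableSpace X] (hinf : ¬ FiniteDimensional ℝ X)
    (hsr : ∃ M : X → ℝ, EquivalentNorm M ∧ UniformlyConvex M) :
    ∃ N : X → ℝ, EquivalentNorm N ∧ GateauxOffZero N ∧ AronszajnNull (frechetPoints N) ∧
      ∃ d : ℕ, NullOnAffine d (frechetPoints N) := by
  obtain ⟨M, ⟨h1, h2, h3⟩, h4⟩ := hsr
  obtain ⟨N, a1, a2, a3, a4, a5, d, a6⟩ :=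
    Pool.Agent.Helper58.Gat.strong X hinf ⟨M, h1, h2, h3, h4⟩
  exact ⟨N, ⟨a1, a2, a3⟩, a4, ⟨a5, fun x hx =>
    Pool.Agent.Helper58.Gat.aron_of_plane X hinf _ a5 d a6 x hx⟩, d, a6⟩

end Pool.Agent.Results.MP_23c9b9_an.FrechetNull
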